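import Mathlib
import Pool.Agent.H82.MenB

set_option autoImplicit false

namespace Pool.Agent.Results.MP_913206_gt.NoExample

open Set Filter Topology Pointwise Pool.Agent.H82.MenB

/-- `𝒪`: open covers of `X` not containing `X` -/
def OCov (X : Type) [TopologicalSpace X] : Set (Set (Set X)) :=
  {𝒰 | (∀ U ∈ 𝒰, IsOpen U) ∧ ⋃₀ 𝒰 = univ ∧ univ ∉ 𝒰}

/-- `Γ`: open `γ`-covers -/
def GCov (X : Type) [TopologicalSpace X] : Set (Set (Set X)) :=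
  {𝒰 | 𝒰 ∈ OCov X ∧ 𝒰.Infinite ∧ ∀ x, {U ∈ 𝒰 | x ∉ U}.Finite}

def S1 {X : Type} (A B : Set (Set (Set X))) : Prop :=
  ∀ 𝒰 : ℕ → Set (Set X), (∀ n, 𝒰 n ∈ A) → ∃ U : ℕ → Set X, (∀ n, U n ∈ 𝒰 n) ∧ range U ∈ B

def Sfin {X : Type} (A B : Set (Set (Set X))) : Prop :=
  ∀ 𝒰 : ℕ → Set (Set X), (∀ n, 𝒰 n ∈ A) →
    ∃ F : ℕ → Set (Set X), (∀ n, F n ⊆ 𝒰 n ∧ (F n).Finite) ∧ ⋃ n, F n ∈ B

/-- `𝒪_nbd` -/
def ONbd (G : Type) [Group G] [TopologicalSpace G] : Set (Set (Set G)) :=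
  {𝒰 | ∃ U : Set G, IsOpen U ∧ 1 ∈ U ∧ U ≠ univ ∧ 𝒰 = {V | ∃ g : G, V = {g} * U}}

/-- `Ω_nbd` -/
def OmNbd (G : Type) [Group G] [TopologicalSpace G] : Set (Set (Set G)) :=
  {𝒰 | ∃ U : Set G, IsOpen U ∧ 1 ∈ U ∧ (∀ F : Set G, F.Finite → F * U ≠ univ) ∧
    𝒰 = {V | ∃ F : Set G, F.Finite ∧ V = F * U}}

theorem result : ∀ (G : Type) [Group G] [TopologicalSpace G] [IsTopologicalGroup G] [T2Space G]
    [TopologicalSpace.SeparableSpace G] [TopologicalSpace.MetrizableSpace G],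
    (∃ f : (ℕ → ℕ) → G, Continuous f ∧ Function.Surjective f) →
    Sfin (ONbd G) (OCov G) → S1 (OmNbd G) (GCov G) := by
  rintro G _ _ _ _ _ _ ⟨f, hf, hs⟩ hM 𝒰 h𝒰
  obtain ⟨b⟩ := exBase (G := G)
  choose U h1 h2 h3 h4 using h𝒰
  choose a ha using fun n => b.ba _ ((h1 n).mem_nhds (h2 n))
  have hG : b.SB univ := by
    by_contra hG
    have h5 : ∀ k0, ∃ F : ℕ → Set G, (∀ k, (F k).Finite) ∧ ∀ z, ∃ k ≥ k0, b.In (F k) k z := by
      intro k0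
      obtain ⟨F, h5, -, h6, -⟩ := hM (fun j => {V | ∃ g : G, V = {g} * interior (b.U (j + k0 + a 0))})
        fun j => ⟨_, isOpen_interior, mem_interior_iff_mem_nhds.2 (b.nh _), fun h =>
          h3 0 {1} (finite_singleton _) (by
            simpa using eq_univ_of_univ_subset (h.symm.subset.trans (interior_subset.trans
              ((b.anti (Nat.le_add_left _ _)).trans (ha 0))))), rfl⟩
      have h7 : ∀ j, ∃ E : Set G, E.Finite ∧ ∀ V ∈ F j, ∀ z ∈ V, b.In E (j + k0 + a 0) z := by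
        intro j
        choose! g hg using fun V (hV : V ∈ F j) => (h5 j).1 hV
        refine ⟨g '' F j, (h5 j).2.image g, fun V hV z hz => ⟨_, ⟨V, hV, rfl⟩, ?_⟩⟩
        rw [hg V hV] at hz
        obtain ⟨_, rfl, y, hy, rfl⟩ := hz
        simpa [Base.cl] using interior_subset hy
      choose E h7 h8 using h7
      refine ⟨fun k => E (k - (k0 + a 0)), fun k => h7 _, fun z => ?_⟩
      obtain ⟨V, hV, hz⟩ := h6.symm.subset (mem_univ z)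
      obtain ⟨j, hj⟩ := mem_iUnion.1 hV
      exact ⟨j + k0 + a 0, by omega, by simpa [add_assoc] using h8 j V hj z hz⟩
    choose F h5 h6 using h5
    obtain ⟨z, k0, hz⟩ := Base.main hf hs hG (F := fun k => ⋃ i ≤ k, ⋃ j ≤ k, F i j)
      (fun k l h => biUnion_mono (fun i hi => le_trans hi h) fun i _ =>
        biUnion_subset_biUnion_left fun j hj => le_trans hj h)
      fun k => (finite_Iic k).biUnion fun i _ => (finite_Iic k).biUnion fun j _ => h5 i j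
    obtain ⟨k, hk, g, hg, h⟩ := h6 k0 z
    exact hz k hk ⟨g, mem_iUnion₂.2 ⟨k0, hk, mem_iUnion₂.2 ⟨k, le_rfl, hg⟩⟩, h⟩
  obtain ⟨S, h5, h6, h7⟩ := hG
  obtain ⟨B, rfl⟩ := h5.exists_eq_range (let ⟨B, h, _⟩ := h7 (mem_univ 1); ⟨B, h⟩)
  choose E h8 h9 using fun i => h6 _ ⟨i, rfl⟩
  let V : ℕ → Set G := fun n => (⋃ i ≤ n, E i (a n)) * U n
  have hF : ∀ n, (⋃ i ≤ n, E i (a n)).Finite := fun n => (finite_Iic n).biUnion fun i _ => h8 i _
  have hV : ∀ z, ∃ i, ∀ n ≥ i, z ∈ V n := fun z => by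
    obtain ⟨_, ⟨i, rfl⟩, hi⟩ := h7 (mem_univ z)
    refine ⟨i, fun n hn => ?_⟩
    obtain ⟨g, hg, h⟩ := h9 i (a n) z hi
    exact ⟨g, mem_iUnion₂.2 ⟨i, hn, hg⟩, _, ha n h, by simp⟩
  refine ⟨V, fun n => h4 n ▸ ⟨_, hF n, rfl⟩, ⟨?_, ?_, ?_⟩, fun h => ?_, fun z => ?_⟩
  · rintro _ ⟨n, rfl⟩
    exact (h1 n).mul_left
  · exact eq_univ_of_forall fun z => (hV z).elim fun i hi => ⟨_, ⟨i, rfl⟩, hi i le_rfl⟩
  · rintro ⟨n, hn⟩
    exact h3 n _ (hF n) hn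
  · have := h.to_subtype
    obtain ⟨⟨_, n, rfl⟩, hn⟩ := Finite.exists_infinite_fiber (rangeFactorization V)
    refine h3 n _ (hF n) (eq_univ_of_forall fun z => ?_)
    obtain ⟨i, hi⟩ := hV z
    obtain ⟨m, h10, h11⟩ := (infinite_coe_iff.1 hn).exists_gt i
    exact (show V m = V n from congrArg Subtype.val h10).subset (hi m h11.le)
  · obtain ⟨i, hi⟩ := hV z
    refine ((finite_Iio i).image V).subset ?_
    rintro _ ⟨⟨n, rfl⟩, hn⟩
    exact ⟨n, not_le.1 fun h => hn (hi n h), rfl⟩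

end Pool.Agent.Results.MP_913206_gt.NoExample
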